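import Pool.Agent.W2helper75.FD.Stm2
import Pool.Agent.W2helper19.FD.Wlk

/-!
# Project FD, piece NRET: with positive probability the walk never returns to the cone
-/

set_option autoImplicit false

open MeasureTheory ProbabilityTheory Filter Topology
open scoped ENNReal NNReal

namespace Pool.Agent.W2helper82.FD

open Pool.Agent.W2helper75.FD Pool.Agent.W2helper19.FD

/-- the first step -/
lemma split {S : Type} [Fintype S] [Nonempty S] [MeasurableSpace S] [DiscreteMeasurableSpace S]
    (E : Set (ℕ → S)) (hE : MeasurableSet E) :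
    mlaw S E = (Fintype.card S : ℝ≥0∞)⁻¹ * ∑ s, mlaw S {c | cns (s, c) ∈ E} := by
  have hmap : mlaw S = ((unif S).prod (mlaw S)).map cns := (map_cns (unif S)).symm
  have h2 : mlaw S E = ∫⁻ s, mlaw S {c | cns (s, c) ∈ E} ∂(unif S) := by
    conv_lhs => rw [hmap]
    rw [Measure.map_apply measurable_cns hE, Measure.prod_apply (measurable_cns hE)]
    rfl
  have hun : ∀ s : S, unif S {s} = (Fintype.card S : ℝ≥0∞)⁻¹ := by
    intro s
    unfold unif
    rw [PMF.toMeasure_apply_singleton _ _ (MeasurableSet.of_discrete),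
      PMF.uniformOfFintype_apply]
  rw [h2, lintegral_fintype, Finset.mul_sum]
  refine Finset.sum_congr rfl fun s _ => ?_
  rw [hun, mul_comm]

lemma card_inv_ne {S : Type} [Fintype S] : (Fintype.card S : ℝ≥0∞)⁻¹ ≠ 0 :=
  ENNReal.inv_ne_zero.2 (ENNReal.natCast_ne_top _)

section

variable {Γ : Type} [Group Γ] {S : Finset Γ}

lemma pth_mg (g : Γ) (c : ℕ → S) (n : ℕ) : pth (mg S) g c n = g * pos c n := by
  induction n with
  | zero => simp [pos, pth]
  | succ n ih =>
    change mg S (pth (mg S) g c n) (c n) = g * mg S (pth (mg S) 1 c n) (c n)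
    rw [ih]
    simp only [mg, pos, mul_assoc]

lemma pos_zero (c : ℕ → S) : pos c 0 = (1 : Γ) := rfl

lemma pos_succ (c : ℕ → S) (n : ℕ) : pos c (n + 1) = pos c n * (c n : Γ) := rfl

lemma pos_cns (s : S) (c : ℕ → S) (n : ℕ) : pos (cns (s, c)) (n + 1) = (s : Γ) * pos c n := by
  rw [pos, pth_cns, pth_mg]
  simp [mg]

variable [Nonempty S] [MeasurableSpace S] [DiscreteMeasurableSpace S]

omit [Nonempty S] in
lemma meas_pos (n : ℕ) (A : Set Γ) : MeasurableSet {c : ℕ → S | pos c n ∈ A} :=
  measurableSet_pth (mg S) 1 n A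

omit [Nonempty S] in
lemma meas_mul_pos (g : Γ) (n : ℕ) (A : Set Γ) : MeasurableSet {c : ℕ → S | g * pos c n ∈ A} :=
  meas_pos n {x | g * x ∈ A}

end

theorem nret : P_NRET := by
  intro Γ _ S _ _ _ hinv hgen h M hM t ht htail hzero
  classical
  have hone : h 1 = 0 := by
    have := hM.hom 1 1
    rw [mul_one] at this
    omega
  have hhinv : ∀ x, h x⁻¹ = -h x := by
    intro x
    have h1 := hM.hom x x⁻¹
    rw [mul_inv_cancel, hone] at h1
    omega
  -- the probability not to hit the cone
  let z : Γ → ℝ≥0∞ := fun g => mlaw S {c : ℕ → S | ∀ n, g * pos c n ∉ M}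
  have hmz : ∀ g : Γ, MeasurableSet {c : ℕ → S | ∀ n, g * pos c n ∉ M} := by
    intro g
    have e : {c : ℕ → S | ∀ n, g * pos c n ∉ M} = ⋂ n, {c : ℕ → S | g * pos c n ∈ Mᶜ} := by
      ext c
      simp
    rw [e]
    exact MeasurableSet.iInter fun n => meas_mul_pos g n _
  have hzstep : ∀ g : Γ, g ∉ M → z g = (Fintype.card S : ℝ≥0∞)⁻¹ * ∑ s : S, z (g * s) := by
    intro g hg
    change mlaw S {c : ℕ → S | ∀ n, g * pos c n ∉ M} = _
    rw [split _ (hmz g)]
    congr 1
    refine Finset.sum_congr rfl fun s _ => ?_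
    change _ = mlaw S {c : ℕ → S | ∀ n, g * s * pos c n ∉ M}
    congr 1
    ext c
    simp only [Set.mem_ofPred_eq]
    constructor
    · intro h1 n
      have := h1 (n + 1)
      rw [pos_cns, ← mul_assoc] at this
      exact this
    · intro h1 n
      cases n with
      | zero => rw [pos_zero, mul_one]; exact hg
      | succ n => rw [pos_cns, ← mul_assoc]; exact h1 n
  have hz1 : ∀ s : S, z s = 0 := by
    have hm : MeasurableSet {c : ℕ → S | ∀ n, 1 ≤ n → pos c n ∉ M} := by
      have e : {c : ℕ → S | ∀ n, 1 ≤ n → pos c n ∉ M} =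
          ⋂ n, ⋂ _ : 1 ≤ n, {c : ℕ → S | pos c n ∈ Mᶜ} := by
        ext c
        simp
      rw [e]
      exact MeasurableSet.iInter fun n => MeasurableSet.iInter fun _ => meas_pos n _
    rw [split _ hm, mul_eq_zero] at hzero
    rcases hzero with h0 | h0
    · exact absurd h0 card_inv_ne
    · intro s
      have h1 := (Finset.sum_eq_zero_iff.1 h0) s (Finset.mem_univ _)
      rw [← h1]
      change mlaw S {c : ℕ → S | ∀ n, (s : Γ) * pos c n ∉ M} = _
      congr 1
      ext c
      simp only [Set.mem_ofPred_eq]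
      constructor
      · intro h2 n hn
        cases n with
        | zero => omega
        | succ n => rw [pos_cns]; exact h2 n
      · intro h2 n
        have := h2 (n + 1) (by omega)
        rwa [pos_cns] at this
  have hzM : ∀ g ∈ M, z g = 0 := by
    intro g hg
    change mlaw S {c : ℕ → S | ∀ n, g * pos c n ∉ M} = 0
    have e : {c : ℕ → S | ∀ n, g * pos c n ∉ M} = ∅ := by
      ext c
      simp only [Set.mem_ofPred_eq, Set.mem_empty_iff_false, iff_false, not_forall, not_not]
      exact ⟨0, by rw [pos_zero, mul_one]; exact hg⟩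
    rw [e, measure_empty]
  have hnext : ∀ g : Γ, z g = 0 → ∀ s : S, z (g * s) = 0 := by
    intro g hg s
    by_cases hgM : g ∈ M
    · refine le_antisymm ?_ (zero_le)
      rw [← hz1 s]
      refine measure_mono fun c hc n hn => ?_
      refine hc n ?_
      rw [mul_assoc]
      exact hM.mul g hgM _ hn
    · have h1 := hzstep g hgM
      rw [hg] at h1
      have h2 := (mul_eq_zero.1 h1.symm).resolve_left card_inv_ne
      exact (Finset.sum_eq_zero_iff.1 h2) s (Finset.mem_univ _)
  have hzall : ∀ g : Γ, z g = 0 := by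
    intro g
    have hg : g ∈ Subgroup.closure (S : Set Γ) := by rw [hgen]; trivial
    induction hg using Subgroup.closure_induction_right with
    | one => exact hzM 1 hM.one
    | mul_right x hx s hs ih => exact hnext x ih ⟨s, hs⟩
    | mul_inv_cancel x hx s hs ih => exact hnext x ih ⟨s⁻¹, hinv s hs⟩
  -- the bound for the steps
  obtain ⟨L, hL⟩ : ∃ L : ℤ, ∀ s ∈ S, h s < L := by
    obtain ⟨L, hL⟩ := (S.image h).exists_le
    exact ⟨L + 1, fun s hs => by
      have := hL (h s) (Finset.mem_image_of_mem h hs)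
      omega⟩
  have hE0 : ∀ g : Γ, g ∉ M →
      mlaw S {c : ℕ → S | ∃ n, g * pos c n ∈ M ∧ h (g * pos c n) < L} = 1 := by
    intro g hg
    have hm : MeasurableSet {c : ℕ → S | ∃ n, g * pos c n ∈ M ∧ h (g * pos c n) < L} := by
      have e : {c : ℕ → S | ∃ n, g * pos c n ∈ M ∧ h (g * pos c n) < L} =
          ⋃ n, {c : ℕ → S | g * pos c n ∈ {x | x ∈ M ∧ h x < L}} := by
        ext c
        simp
      rw [e]
      exact MeasurableSet.iUnion fun n => meas_mul_pos g n _
    rw [← prob_compl_eq_zero_iff hm]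
    refine le_antisymm ?_ zero_le
    rw [← hzall g]
    refine measure_mono fun c hc => ?_
    by_contra hcon
    simp only [Set.mem_ofPred_eq, not_forall, not_not] at hcon
    apply hc
    have hn := Nat.find_spec hcon
    have hmin := fun {k} => @Nat.find_min _ _ hcon k
    set n := Nat.find hcon with hndef
    refine ⟨n, hn, ?_⟩
    cases hn0 : n with
    | zero =>
      rw [hn0, pos_zero, mul_one] at hn
      exact absurd hn hg
    | succ k =>
      have hk : g * pos c k ∉ M := hmin (by omega)
      rw [hn0] at hn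
      rw [pos_succ, ← mul_assoc] at hn ⊢
      by_contra hlt
      apply hk
      have hs := (c k).2
      have e2 : g * pos c k = g * pos c k * (c k : Γ) * (c k : Γ)⁻¹ := by group
      rw [e2]
      refine hM.stp _ hn _ (hinv _ hs) ?_
      rw [← e2]
      have h3 := hM.hom (g * pos c k) (c k : Γ)
      have h4 := hL _ hs
      omega
  -- comparison
  let A : ℕ → Γ → ℝ≥0∞ := fun N g =>
    mlaw S {c : ℕ → S | ∃ n, N ≤ n ∧ g * pos c n ∈ M ∧ h (g * pos c n) < L}
  let W : ℕ → ℤ → ℝ≥0∞ := fun N a => mlaw S {c : ℕ → S | a + h (pos c N) < 0}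
  let W' : ℕ → ℤ → ℝ≥0∞ := fun N a => mlaw S {c : ℕ → S | 0 < a + h (pos c N)}
  let Z : ℕ → ℤ → ℝ≥0∞ := fun N a => mlaw S {c : ℕ → S | a + h (pos c N) = 0}
  have hmA : ∀ N g, MeasurableSet
      {c : ℕ → S | ∃ n, N ≤ n ∧ g * pos c n ∈ M ∧ h (g * pos c n) < L} := by
    intro N g
    have e : {c : ℕ → S | ∃ n, N ≤ n ∧ g * pos c n ∈ M ∧ h (g * pos c n) < L} =
        ⋃ n, ⋃ _ : N ≤ n, {c : ℕ → S | g * pos c n ∈ {x | x ∈ M ∧ h x < L}} := by
      ext c
      simp only [Set.mem_ofPred_eq, Set.mem_iUnion, exists_prop]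
    rw [e]
    exact MeasurableSet.iUnion fun n => MeasurableSet.iUnion fun _ => meas_mul_pos g n _
  have hW : ∀ N a, W (N + 1) a = (Fintype.card S : ℝ≥0∞)⁻¹ * ∑ s : S, W N (a + h s) := by
    intro N a
    change mlaw S {c : ℕ → S | a + h (pos c (N + 1)) < 0} = _
    refine (split _ (meas_pos (N + 1) {x | a + h x < 0})).trans ?_
    congr 1
    refine Finset.sum_congr rfl fun s _ => ?_
    change _ = mlaw S {c : ℕ → S | a + h s + h (pos c N) < 0}
    congr 1
    ext c
    simp only [Set.mem_ofPred_eq, pos_cns, hM.hom, add_assoc]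
  have hW' : ∀ N a, W' (N + 1) a = (Fintype.card S : ℝ≥0∞)⁻¹ * ∑ s : S, W' N (a + h s) := by
    intro N a
    change mlaw S {c : ℕ → S | 0 < a + h (pos c (N + 1))} = _
    refine (split _ (meas_pos (N + 1) {x | 0 < a + h x})).trans ?_
    congr 1
    refine Finset.sum_congr rfl fun s _ => ?_
    change _ = mlaw S {c : ℕ → S | 0 < a + h s + h (pos c N)}
    congr 1
    ext c
    simp only [Set.mem_ofPred_eq, pos_cns, hM.hom, add_assoc]
  have hZ : ∀ N a, Z (N + 1) a = (Fintype.card S : ℝ≥0∞)⁻¹ * ∑ s : S, Z N (a + h s) := by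
    intro N a
    change mlaw S {c : ℕ → S | a + h (pos c (N + 1)) = 0} = _
    refine (split _ (meas_pos (N + 1) {x | a + h x = 0})).trans ?_
    congr 1
    refine Finset.sum_congr rfl fun s _ => ?_
    change _ = mlaw S {c : ℕ → S | a + h s + h (pos c N) = 0}
    congr 1
    ext c
    simp only [Set.mem_ofPred_eq, pos_cns, hM.hom, add_assoc]
  have hAW : ∀ N g, W N (h g) ≤ A N g := by
    intro N
    induction N with
    | zero =>
      intro g
      by_cases hg : h g < 0
      · have hgM : g ∉ M := fun hm => by have := hM.pos g hm; omega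
        have h1 : A 0 g = 1 := by
          rw [← hE0 g hgM]
          change mlaw S _ = mlaw S _
          congr 1
          ext c
          simp
        rw [h1]
        exact prob_le_one
      · have h1 : W 0 (h g) = 0 := by
          change mlaw S {c : ℕ → S | h g + h (pos c 0) < 0} = 0
          have e : {c : ℕ → S | h g + h (pos c 0) < 0} = ∅ := by
            ext c
            simp only [Set.mem_ofPred_eq, pos_zero, hone, add_zero, Set.mem_empty_iff_false,
              iff_false]
            exact hg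
          rw [e, measure_empty]
        rw [h1]
        exact zero_le
    | succ N ih =>
      intro g
      have h1 : (Fintype.card S : ℝ≥0∞)⁻¹ * ∑ s : S, A N (g * s) ≤ A (N + 1) g := by
        change _ ≤ mlaw S {c : ℕ → S | ∃ n, N + 1 ≤ n ∧ g * pos c n ∈ M ∧ h (g * pos c n) < L}
        rw [split _ (hmA (N + 1) g)]
        refine mul_le_mul_right (Finset.sum_le_sum fun s _ => measure_mono ?_) _
        rintro c ⟨n, hn, hc1, hc2⟩
        refine ⟨n + 1, by omega, ?_⟩
        rw [pos_cns, ← mul_assoc]
        exact ⟨hc1, hc2⟩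
      refine le_trans ?_ h1
      rw [hW]
      refine mul_le_mul_right (Finset.sum_le_sum fun s _ => ?_) _
      rw [← hM.hom]
      exact ih _
  have hsym : ∀ N a, W N a = W' N (-a) := by
    intro N
    induction N with
    | zero =>
      intro a
      change mlaw S {c : ℕ → S | a + h (pos c 0) < 0} = mlaw S {c : ℕ → S | 0 < -a + h (pos c 0)}
      congr 1
      ext c
      simp only [Set.mem_ofPred_eq, pos_zero, hone]
      omega
    | succ N ih =>
      intro a
      rw [hW, hW']
      congr 1
      let σ : S ≃ S :=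
        { toFun := fun s => ⟨(s : Γ)⁻¹, hinv _ s.2⟩
          invFun := fun s => ⟨(s : Γ)⁻¹, hinv _ s.2⟩
          left_inv := fun s => by simp
          right_inv := fun s => by simp }
      refine Fintype.sum_equiv σ _ _ fun s => ?_
      rw [ih]
      congr 1
      change _ = -a + h (s : Γ)⁻¹
      rw [hhinv]
      ring
  obtain ⟨s0, hs0⟩ : ∃ s : S, h s < 0 := by
    by_contra hcon
    push Not at hcon
    have hpos : ∀ s ∈ S, h s = 0 := by
      intro s hs
      have h1 := hcon ⟨s, hs⟩
      have h2 := hcon ⟨s⁻¹, hinv s hs⟩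
      simp only [hhinv] at h1 h2
      omega
    have hall : ∀ g : Γ, h g = 0 := by
      intro g
      have hg : g ∈ Subgroup.closure (S : Set Γ) := by rw [hgen]; trivial
      induction hg using Subgroup.closure_induction_right with
      | one => exact hone
      | mul_right x hx s hs ih => rw [hM.hom, ih, hpos s hs, add_zero]
      | mul_inv_cancel x hx s hs ih => rw [hM.hom, ih, hhinv, hpos s hs, neg_zero, add_zero]
    have := hall t
    omega
  have hZW : ∀ N a, (Fintype.card S : ℝ≥0∞)⁻¹ * Z N a ≤ W (N + 1) a := by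
    intro N
    induction N with
    | zero =>
      intro a
      rw [hW]
      refine mul_le_mul_right ?_ _
      by_cases ha : a = 0
      · refine le_trans ?_ (Finset.single_le_sum (f := fun s : S => W 0 (a + h s))
          (fun _ _ => zero_le) (Finset.mem_univ s0))
        refine measure_mono fun c _ => ?_
        simp only [Set.mem_ofPred_eq, pos_zero, hone]
        omega
      · have h1 : Z 0 a = 0 := by
          change mlaw S {c : ℕ → S | a + h (pos c 0) = 0} = 0
          have e : {c : ℕ → S | a + h (pos c 0) = 0} = ∅ := by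
            ext c
            simp only [Set.mem_ofPred_eq, pos_zero, hone, add_zero, Set.mem_empty_iff_false,
              iff_false]
            exact ha
          rw [e, measure_empty]
        rw [h1]
        exact zero_le
    | succ N ih =>
      intro a
      rw [hZ, hW (N + 1), Finset.mul_sum]
      refine mul_le_mul_right (Finset.sum_le_sum fun s _ => ih _) _
  -- the limit
  have hcard : (Fintype.card S : ℝ≥0∞) ≠ ⊤ := ENNReal.natCast_ne_top _
  have hcard0 : (Fintype.card S : ℝ≥0∞) ≠ 0 := Nat.cast_ne_zero.2 Fintype.card_ne_zero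
  have htot : ∀ N, 1 ≤ 2 * W N 0 + Fintype.card S * W (N + 1) 0 := by
    intro N
    have h1 : (Set.univ : Set (ℕ → S)) ⊆ ({c : ℕ → S | 0 + h (pos c N) < 0} ∪
        {c : ℕ → S | 0 < -0 + h (pos c N)}) ∪ {c : ℕ → S | 0 + h (pos c N) = 0} := by
      intro c _
      simp only [Set.mem_union, Set.mem_ofPred_eq]
      omega
    have h2 : Z N 0 ≤ Fintype.card S * W (N + 1) 0 := by
      have h3 := mul_le_mul_right (hZW N 0) (Fintype.card S : ℝ≥0∞)
      rwa [← mul_assoc, ENNReal.mul_inv_cancel hcard0 hcard, one_mul] at h3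
    calc (1 : ℝ≥0∞) = mlaw S Set.univ := measure_univ.symm
      _ ≤ _ := measure_mono h1
      _ ≤ _ := measure_union_le _ _
      _ ≤ (W N 0 + W' N (-0)) + Z N 0 := add_le_add (measure_union_le _ _) le_rfl
      _ ≤ 2 * W N 0 + Fintype.card S * W (N + 1) 0 := by
          rw [← hsym, two_mul]
          exact add_le_add le_rfl h2
  have hlim : Tendsto (fun N => W N 0) atTop (𝓝 0) := by
    have h1 := ENNReal.tendsto_sum_nat_add
      (fun n => mlaw S {c : ℕ → S | pos c n ∈ M ∧ h (pos c n) < L}) (htail L)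
    refine tendsto_of_tendsto_of_tendsto_of_le_of_le tendsto_const_nhds h1
      (fun _ => zero_le) fun N => ?_
    have h2 := hAW N 1
    rw [hone] at h2
    refine h2.trans ?_
    have h3 : {c : ℕ → S | ∃ n, N ≤ n ∧ 1 * pos c n ∈ M ∧ h (1 * pos c n) < L} ⊆
        ⋃ k, {c : ℕ → S | pos c (k + N) ∈ M ∧ h (pos c (k + N)) < L} := by
      rintro c ⟨n, hn, hc⟩
      rw [Set.mem_iUnion]
      refine ⟨n - N, ?_⟩
      rw [one_mul] at hc
      have : n - N + N = n := by omega
      rw [Set.mem_ofPred_eq, this]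
      exact hc
    exact (measure_mono h3).trans (measure_iUnion_le _)
  have hlim2 : Tendsto (fun N => 2 * W N 0 + Fintype.card S * W (N + 1) 0) atTop (𝓝 0) := by
    have h1 : Tendsto (fun N => 2 * W N 0) atTop (𝓝 (2 * 0)) :=
      ENNReal.Tendsto.const_mul hlim (Or.inr (by norm_num))
    have h2 : Tendsto (fun N => (Fintype.card S : ℝ≥0∞) * W (N + 1) 0) atTop
        (𝓝 ((Fintype.card S : ℝ≥0∞) * 0)) :=
      ENNReal.Tendsto.const_mul (hlim.comp (tendsto_add_atTop_nat 1)) (Or.inr hcard)
    have h3 := h1.add h2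
    simpa using h3
  have h1 := ge_of_tendsto' hlim2 htot
  exact absurd h1 (by simp)

end Pool.Agent.W2helper82.FD
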