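import Pool.Agent.W2helper75.FD.Stm2
import Pool.Agent.W2helper75.FD.Res

/-!
# Project FD, piece GWS: survival of a branching process in disjoint cones
-/

set_option autoImplicit false

open MeasureTheory ProbabilityTheory Filter Topology
open scoped ENNReal NNReal

namespace Pool.Agent.W2helper82.FD

open Pool.Agent.W2helper75.FD

/-- a measurable set that depends only on the coordinates of `T` is measurable with respect to
them -/
lemma measurable_local {V D : Type} [MeasurableSpace D] [Nonempty D] (T : Set V)
    (A : Set (V → D)) (hA : MeasurableSet A)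
    (hT : ∀ ω ω' : V → D, (∀ i ∈ T, ω i = ω' i) → (ω ∈ A ↔ ω' ∈ A)) :
    MeasurableSet[⨆ i ∈ T, MeasurableSpace.comap (fun ω : V → D => ω i) inferInstance] A := by
  classical
  obtain ⟨d0⟩ := ‹Nonempty D›
  let g : (V → D) → (V → D) := fun ω i => if i ∈ T then ω i else d0
  have hg : A = g ⁻¹' A := by
    ext ω
    refine hT ω (g ω) fun i hi => ?_
    simp [g, hi]
  have hm : @Measurable _ _ (⨆ i ∈ T, MeasurableSpace.comap (fun ω : V → D => ω i) inferInstance)
      inferInstance g := by
    refine @measurable_pi_lambda _ _ _
      (⨆ i ∈ T, MeasurableSpace.comap (fun ω : V → D => ω i) inferInstance) _ _ fun i => ?_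
    by_cases hi : i ∈ T
    · have e : (fun ω : V → D => g ω i) = fun ω => ω i := by
        funext ω
        simp [g, hi]
      rw [e]
      refine Measurable.mono (comap_measurable (fun ω : V → D => ω i)) ?_ le_rfl
      exact le_iSup₂ (f := fun i (_ : i ∈ T) =>
        MeasurableSpace.comap (fun ω : V → D => ω i) inferInstance) i hi
    · have e : (fun ω : V → D => g ω i) = fun _ => d0 := by
        funext ω
        simp [g, hi]
      rw [e]
      exact @measurable_const _ _ _
        (⨆ i ∈ T, MeasurableSpace.comap (fun ω : V → D => ω i) inferInstance) _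
  rw [hg]
  exact hm hA

theorem gws : P_GWS := by
  intro V D _ _ _ μ _ cn ch hmeas hself hsub hdis r hr hmean
  classical
  have hdep : ∀ m v (ω ω' : V → D), (∀ i ∈ cn v, ω i = ω' i) →
      (Alive ch ω m v ↔ Alive ch ω' m v) := by
    intro m
    induction m with
    | zero => intro v ω ω' _; exact Iff.rfl
    | succ m ih =>
      intro v ω ω' h
      simp only [Alive]
      rw [h v (hself v)]
      constructor
      · rintro ⟨x, hx, hA⟩
        exact ⟨x, hx, (ih x ω ω' fun i hi => h i ((hsub v _ x hx).1 hi)).1 hA⟩
      · rintro ⟨x, hx, hA⟩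
        exact ⟨x, hx, (ih x ω ω' fun i hi => h i ((hsub v _ x hx).1 hi)).2 hA⟩
  have hmA : ∀ m v, MeasurableSet {ω : V → D | Alive ch ω m v} := by
    intro m
    induction m with
    | zero =>
      intro v
      simp only [Alive]
      exact MeasurableSet.const _
    | succ m ih =>
      intro v
      have e : {ω : V → D | Alive ch ω (m + 1) v} =
          ⋃ F : Finset V, ({ω | ch v (ω v) = F} ∩ ⋃ x ∈ F, {ω | Alive ch ω m x}) := by
        ext ω
        simp [Alive]
      rw [e]
      refine MeasurableSet.iUnion fun F => MeasurableSet.inter ?_ ?_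
      · exact (measurable_pi_apply (X := fun _ : V => D) v) (hmeas v F)
      · exact Finset.measurableSet_biUnion F fun x _ => ih x
  have hle : ∀ i : V, MeasurableSpace.comap (fun ω : V → D => ω i) inferInstance ≤
      (inferInstance : MeasurableSpace (V → D)) := fun i => (measurable_pi_apply i).comap_le
  have hind : iIndep (fun i : V => MeasurableSpace.comap (fun ω : V → D => ω i) inferInstance)
      (Measure.infinitePi fun _ : V => μ) := by
    have h1 := iIndepFun_infinitePi (P := fun _ : V => μ) (X := fun _ => id)
      (fun _ => measurable_id)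
    exact h1
  -- independence over disjoint cones
  have hprod : ∀ m (F : Finset V), (∀ x ∈ F, ∀ y ∈ F, x ≠ y → Disjoint (cn x) (cn y)) →
      (Measure.infinitePi fun _ : V => μ) {ω | ∀ x ∈ F, ¬ Alive ch ω m x} =
        ∏ x ∈ F, (Measure.infinitePi fun _ : V => μ) {ω | ¬ Alive ch ω m x} := by
    intro m F
    induction F using Finset.induction_on with
    | empty => intro _; simp
    | insert a s ha ih =>
      intro hF
      have e : {ω : V → D | ∀ x ∈ insert a s, ¬ Alive ch ω m x} =
          {ω | ¬ Alive ch ω m a} ∩ {ω | ∀ x ∈ s, ¬ Alive ch ω m x} := by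
        ext ω
        simp
      have hT : Disjoint (cn a) (⋃ x ∈ s, cn x) := by
        rw [Set.disjoint_iUnion₂_right]
        intro x hx
        refine hF a (Finset.mem_insert_self _ _) x (Finset.mem_insert_of_mem hx) ?_
        rintro rfl
        exact ha hx
      have h1 := indep_iSup_of_disjoint hle hind hT
      have hm1 : MeasurableSet[⨆ i ∈ cn a,
          MeasurableSpace.comap (fun ω : V → D => ω i) inferInstance]
          {ω : V → D | ¬ Alive ch ω m a} :=
        measurable_local (cn a) _ (hmA m a).compl fun ω ω' h => not_congr (hdep m a ω ω' h)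
      have hms : MeasurableSet {ω : V → D | ∀ x ∈ s, ¬ Alive ch ω m x} := by
        have e2 : {ω : V → D | ∀ x ∈ s, ¬ Alive ch ω m x} =
            ⋂ x ∈ s, {ω | ¬ Alive ch ω m x} := by
          ext ω
          simp
        rw [e2]
        exact Finset.measurableSet_biInter s fun x _ => (hmA m x).compl
      have hm2 : MeasurableSet[⨆ i ∈ ⋃ x ∈ s, cn x,
          MeasurableSpace.comap (fun ω : V → D => ω i) inferInstance]
          {ω : V → D | ∀ x ∈ s, ¬ Alive ch ω m x} := by
        refine measurable_local (⋃ x ∈ s, cn x) _ hms fun ω ω' h => ?_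
        refine forall₂_congr fun x hx => not_congr (hdep m x ω ω' fun i hi => h i ?_)
        exact Set.mem_biUnion hx hi
      rw [e, Finset.prod_insert ha, ← ih fun x hx y hy =>
        hF x (Finset.mem_insert_of_mem hx) y (Finset.mem_insert_of_mem hy)]
      exact (Indep_iff _ _ _).1 h1 _ _ hm1 hm2
  have hq : ∀ m v, (Measure.infinitePi fun _ : V => μ) {ω | ¬ Alive ch ω m v} ≤ 1 - r := by
    intro m
    induction m with
    | zero =>
      intro v
      have e : {ω : V → D | ¬ Alive ch ω 0 v} = ∅ := by
        ext ω
        simp [Alive]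
      rw [e, measure_empty]
      exact zero_le
    | succ m ih =>
      intro v
      have hres := res V D μ v
      have hm1 : MeasurableSet {ω : V → D | ¬ Alive ch ω (m + 1) v} := (hmA (m + 1) v).compl
      have hupd := measurable_update_pair (D := D) v
      have h1 : (Measure.infinitePi fun _ : V => μ) {ω : V → D | ¬ Alive ch ω (m + 1) v} =
          ∫⁻ d, (Measure.infinitePi fun _ : V => μ)
            {ω : V → D | ∀ x ∈ ch v d, ¬ Alive ch ω m x} ∂μ := by
        conv_lhs => rw [← hres]
        rw [Measure.map_apply hupd hm1, Measure.prod_apply (hupd hm1)]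
        refine lintegral_congr fun d => ?_
        congr 1
        ext ω
        simp only [Set.mem_preimage, Set.mem_ofPred_eq, Alive, Function.update_self, not_exists,
          not_and]
        refine forall₂_congr fun x hx => not_congr (hdep m x _ _ fun i hi => ?_)
        refine Function.update_of_ne ?_ _ _
        rintro rfl
        exact (hsub i d x hx).2 hi
      rw [h1]
      refine (lintegral_mono fun d => ?_).trans (hmean v)
      rw [hprod m _ fun x hx y hy => hdis v d x hx y hy]
      calc ∏ x ∈ ch v d, (Measure.infinitePi fun _ : V => μ) {ω | ¬ Alive ch ω m x}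
          ≤ ∏ _x ∈ ch v d, (1 - r) := Finset.prod_le_prod' fun x _ => ih x
        _ = (1 - r) ^ (ch v d).card := by rw [Finset.prod_const]
  intro m v
  have h2 := prob_add_prob_compl (μ := Measure.infinitePi fun _ : V => μ) (hmA m v)
  have h3 : {ω : V → D | Alive ch ω m v}ᶜ = {ω | ¬ Alive ch ω m v} := rfl
  rw [h3] at h2
  have h4 := hq m v
  have h5 : (1 : ℝ≥0∞) - (1 - r) = r := ENNReal.sub_sub_cancel ENNReal.one_ne_top hr
  calc r = 1 - (1 - r) := h5.symm
    _ ≤ 1 - (Measure.infinitePi fun _ : V => μ) {ω | ¬ Alive ch ω m v} := tsub_le_tsub_left h4 _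
    _ ≤ (Measure.infinitePi fun _ : V => μ) {ω | Alive ch ω m v} := by
        rw [tsub_le_iff_right, h2]

end Pool.Agent.W2helper82.FD
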